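import Pool.Agent.U213.TB.Prime

/-!
# Jannsen's generalized Tate–Beilinson conjecture and trilinear hypersurfaces

Fix a prime `p` and a prime `ℓ ≠ p`, `Λ = ℚ_ℓ`. A `System p Λ` consists of the motivic homology
`H_i^M(X, ℚ(j)) = CH_j(X, i - 2j)_ℚ`, the `ℓ`-adic homology `H_i(X_K̄, ℚ_ℓ(j))` with the geometric
Frobenius, and the regulators, for all finite fields `K` of characteristic `p` and all separated schemes
`X` of finite type over `K` (not necessarily quasi-projective); its fields are the standard properties
which are used (localization sequences, affine bundles, the multiplicative group, the point, restriction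
of the base field). `TB(X)` is the assertion of the problem: for all `i` and `j` the regulator induces an
isomorphism from `H_i^M(X, ℚ(j)) ⊗ ℚ_ℓ` to the Galois invariants, and the eigenvalue `1` of the Frobenius
is semisimple.

1. For every finite field `K` and every `n`: TB for the smooth projective schemes over `K` of dimension at
  most `n` (or any class `C` of schemes with the properties `IsProjClass`) is equivalent to TB for all
  separated schemes of finite type over `K` of dimension at most `n`, and to TB for the smooth affine cubic
  hypersurfaces `F(x, y, z) = 1`, for all trilinear forms `F` over `K` in three blocks of variables one of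
  which has at most `n + 2` variables. Since TB is true for curves, TB is true for all hypersurfaces
  `F(x, y, z) = 1` with a block of at most three variables.
2. TB for the hypersurface `F(x, y, z) = 1` is equivalent to TB for the cone `F(x, y, z) = 0`, for every
  single trilinear form `F`.
3. TB for all separated schemes of finite type over all finite fields of characteristic `p` is equivalent to
  TB for the hypersurfaces `∑_{(i, j, k) ∈ E} x_i y_j z_k = 1` over the prime field, for all finite sets
  `E` of triples such that every variable `x_i` occurs in at most three of the monomials; the same for all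
  smooth projective schemes over all finite fields of characteristic `p`.
4. For every single twist `j` (and all degrees `i`): TB in the twist `j` for all separated schemes of finite
  type over all finite fields of characteristic `p` is equivalent to TB in the twist `j` for the affine
  schemes over the prime field given by systems of equations each of which is a sum of at most three
  monomials `x_i y_j`.

The closure properties of TB are proved in `Pool.Agent.U213.TB.Lin`: TB is equivalent to the assertion that
the regulator is an isomorphism to the generalized eigenspace; the generalized eigenspaces form exact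
sequences, so there is a five lemma for TB; TB over the prime field implies TB over the field `K`, since a
Jordan block of length two for the Frobenius of `K` gives one in the induced representation. The sparse
hypersurfaces are added in `Pool.Agent.U213.TB.Few`. The geometric reductions of any property with these
closure properties are those of `Pool.Agent.Y116.UV`, `Pool.Agent.Z125.UN` and `Pool.Agent.Q282.UZ`, the
cones those of `Pool.Agent.U583.MW.Cone`.
-/

set_option autoImplicit false

open CategoryTheory AlgebraicGeometry MvPolynomial Pool.Agent.Y116.UV Pool.Agent.U213.TB
open Pool.Agent.U583.MW (coneS cone_iff)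

namespace Pool.Agent.Results.MP_2ce3e7_ag.SparseHypersurfaces

universe u v

theorem result (p : ℕ) [Fact p.Prime] (Λ : Type u) [Field Λ] [CharZero Λ] (S : System.{u, v} p Λ) :
    -- dimension at most `n` and forms with a block of at most `n + 2` variables
    (∀ (K : Type) [Field K] [Finite K] [Algebra (ZMod p) K] (C : Sch K → Prop),
      IsProjClass (S.T K) C →
        (∀ n : ℕ, ((S.T K).TBPr C n ↔ (S.T K).TBDim n) ∧
          ((S.T K).TBDim n ↔ (S.T K).TBTri (n + 2))) ∧
        (S.T K).TBTri 3) ∧
    -- hypersurfaces and cones
    (∀ (K : Type) [Field K] [Finite K] [Algebra (ZMod p) K] (a b c : ℕ)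
      (F : Fin a → Fin b → Fin c → K), (S.T K).TB (hypS F) ↔ (S.T K).TB (coneS F)) ∧
    -- all finite fields of characteristic `p`
    (S.TBAll ↔ S.TBSparse) ∧
    (∀ C : (∀ (K : Type) [Field K] [Finite K] [Algebra (ZMod p) K], Sch K → Prop),
      (∀ (K : Type) [Field K] [Finite K] [Algebra (ZMod p) K], IsProjClass (S.T K) (C K)) →
        ((∀ (K : Type) [Field K] [Finite K] [Algebra (ZMod p) K] (X : Sch K), C K X → (S.T K).TB X) ↔
          S.TBSparse)) ∧
    -- a fixed twist
    ∀ j : ℤ, S.TBTwistAll j ↔ S.TBTwistSys j := by
  refine ⟨fun K _ _ _ C hC => ⟨fun n => ⟨pr_iff _ (one_lt_card K) hC n,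
    dim_iff _ (one_lt_card K) n⟩, ?_⟩, fun K _ _ _ a b c F => cone_iff (bnd _ (one_lt_card K)) F,
    prime_iff S, fun C hC => ⟨fun h => ?_, fun h K _ _ _ X hX => ?_⟩, twist_iff S⟩
  · exact (dim_iff _ (one_lt_card K) 1).1 ((pr_iff _ (one_lt_card K) hC 1).1
      fun X hX hd => hC.curves X hX hd)
  · intro a b c E _
    have h1 : tripS (ZMod p) E = hypS fun i j k => if (i, j, k) ∈ E then (1 : ZMod p) else 0 := by
      unfold tripS hypS Trip Hyp
      rw [tri_ind]
    rw [h1]
    exact (dim_iff _ (one_lt_card (ZMod p)) c).1 ((pr_iff _ (one_lt_card (ZMod p))
      (hC (ZMod p)) c).1 fun X hX _ => h (ZMod p) X hX) a b c _ (Or.inr (Or.inr (by omega)))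
  · exact (prime_iff S).2 h K X ((hC K).ft X hX)

end Pool.Agent.Results.MP_2ce3e7_ag.SparseHypersurfaces
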