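import Pool.Agent.U735.TB.Final

/-!
# Jannsen's conjecture, Tate's conjecture and conservativity

Let `C = DM_c(𝔽_q)` be the category of constructible Voevodsky motives with rational coefficients
over a finite field, with its `ℓ`-adic realisation `R`. As in the library (`Pool.Agent.Y116.MT`) `C`
is a rigid tensor triangulated category and a realisation is a tensor cohomology theory
`H^i(K) = H(K[i])`; moreover `C` is `ℚ`-linear and `End(𝟙) = ℚ`. The known properties of the Chow
motives and of the Frobenius endomorphism are in the structure `FiniteField` (Voevodsky, Bondarko,
Deligne).

For a separated scheme `X` of finite type over `𝔽_q` with motive with compact support `M^c(X)` the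
motivic homology groups are `H_i(X, ℚ(j)) = Hom(𝟙, K)` with `K = M^c(X)(-j)[-i]`, and the regulator
is the cycle map `Hom(𝟙, K) ⊗ ℚ_ℓ ⟶ H(K)`. So TB(X) is the statement `TateBeilinson K` for all these
`K`. Jannsen's conjecture is (1) below for the `K = M^c(X)(-j)[-i]`; it contains the case of smooth
projective varieties, hence implies (2), and therefore is equivalent to (1).

The theorem: Jannsen's conjecture holds for all constructible motives if and only if

* Tate's conjecture holds for smooth projective varieties over `𝔽_q` (the Frobenius invariants of
  `H^{2i}(X, ℚ_ℓ(i))` are spanned by cycle classes) and the `ℓ`-adic realisation is conservative on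
  `DM_c(𝔽_q)`, or equivalently
* Tate's conjecture holds in the strong form (the rank of cycles modulo numerical equivalence is the
  multiplicity of the eigenvalue `1`, i.e. the order of the pole of the zeta function) and the
  realisation is conservative on Chow motives only.

In Jannsen's theorem (2007) the finite dimensionality of the motive in the sense of Kimura is
assumed; here it is replaced by conservativity, and there is a converse.

The proof. (4) ⇒ (1): let `e` be the projection of a Chow motive `P` given by dual bases of
classes. A polynomial `q` with rational coefficients and `q(1) ≠ 0` in the Frobenius `φ` of `P` acts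
as zero on the part of the cohomology of `P` cut out by `1 - e`. So `1 - (1 - e) q(φ) / q(1)` is an
automorphism of `P` by conservativity, and it kills `x (1 - e)` for all `x : 𝟙 ⟶ P[n]`. Hence
`x = x e` and the groups `Hom(𝟙, P[n])` are known. The five lemma gives the general case.
(3) ⇒ (4): a class `z` with non zero image in cohomology is not numerically trivial, by a Koszul
argument for the cone of `z` and a polynomial in the Frobenius which acts on the cone as zero
outside degree zero; then the eigenvalue `1` is semisimple, as `Im(F - 1)` is orthogonal to the
classes of cycles. (1) ⇒ (3): the realisation is faithful.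
-/

set_option autoImplicit false

open CategoryTheory Limits MonoidalCategory Pretriangulated Triangulated

universe v u w

namespace Pool.Agent.Results.MP_2ce3e7_ag.TateAndConservativity

open Pool.Agent.Y116.MT Pool.Agent.V1178.MT Pool.Agent.U735.TB

/-- The conjecture of Jannsen for all constructible motives over a finite field is equivalent to
its case of (shifted) Chow motives, to Tate's conjecture together with the conservativity of the
realisation, and to the strong form of Tate's conjecture together with the conservativity on Chow
motives. -/
theorem result {C : Type u} [Category.{v} C] [Preadditive C] [HasZeroObject C] [HasShift C ℤ]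
    [∀ n : ℤ, (shiftFunctor C n).Additive] [Pretriangulated C] [MonoidalCategory C]
    [SymmetricCategory C] [TensorTriangulated C] [MonoidalPreadditive C] [RightRigidCategory C]
    [Linear ℚ C] (hQ : ∀ e : 𝟙_ C ⟶ 𝟙_ C, ∃ q : ℚ, e = q • 𝟙 (𝟙_ C))
    {E : Type w} [Field E] [CharZero E] (R : Realisation C E) (Chow : ObjectProperty C)
    (φ : 𝟭 C ⟶ 𝟭 C) (hC : FiniteField Chow φ R) :
    List.TFAE [∀ K : C, TateBeilinson φ R K,
      ∀ P : C, Chow P → ∀ n : ℤ, TateBeilinson φ R (P⟦n⟧),
      Tate φ R Chow ∧ Conservative R,
      StrongTate φ R Chow ∧ ConservativeOn R Chow] :=
  main hQ hC

end Pool.Agent.Results.MP_2ce3e7_ag.TateAndConservativity
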