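import Pool.Agent.U738.TB.Times

/-!
# Jannsen's generalized Tate–Beilinson conjecture: equations with two terms and with three terms

Fix a prime `p` and a prime `ℓ ≠ p`, `Λ = ℚ_ℓ`. A `System p Λ` (starting library of the second kind:
`Pool.Agent.U213.TB`) consists of the motivic homology `CH_j(X, i - 2j)_ℚ`, the `ℓ`-adic homology
`H_i(X_K̄, ℚ_ℓ(j))` with the geometric Frobenius, and the regulators, for all finite fields `K` of
characteristic `p` and all separated schemes `X` of finite type over `K`; its fields are the standard
properties which are used. `TB(X)` is the assertion of the problem. `IsProjClass` collects the properties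
of the class of smooth projective schemes: TB is known for its members of dimension at most one, and
de Jong's alterations exist.

We show that `TB(X)` is true for all schemes `X`, of any dimension and with any singularities, which are
given by any set of equations with at most two terms whose coefficients are arbitrary elements of an
algebra `B` of finite type and dimension at most one over a finite field (so `X → Spec B` is a family over
a curve whose fibres are given by monomial and binomial equations; no equation is assumed to be
homogeneous, and the coefficients may vanish at some points of the curve). And for `t ≥ 3` the same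
statement with `t` terms in place of two is equivalent to Q1.

The proof for two terms: noetherian induction on the base; on the tori of the coordinate stratification
the equations are `x^m = c` with a coefficient `c`, after a further stratification of the base the
solutions are a twisted group algebra over a finitely generated abelian group, and this is a Laurent
polynomial ring over a finite algebra over the base, which has dimension at most one; TB passes from `X`
to `X × 𝔾_m` and, by the five lemma for the generalized eigenspaces, to unions of strata.
-/

set_option autoImplicit false

open CategoryTheory AlgebraicGeometry MvPolynomial Pool.Agent.Y116.UV Pool.Agent.U213.TB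
  Pool.Agent.U738.BN Pool.Agent.U738.TB

universe u v

namespace Pool.Agent.Results.MP_2ce3e7_ag.TwoAndThreeTerms

/-- **Theorem.** For every `t ≥ 0` the following statements are equivalent:
(1) for all finite fields `K` of characteristic `p`, TB is true for all schemes given by any set of
equations with at most `t` terms whose coefficients are in a `K`-algebra of finite type of dimension at most
one;
(2) TB is true for all schemes over the prime field given by finite systems of bilinear equations, each of
which is a sum of at most `t` monomials `x_i y_j`;
(3) `t ≤ 2`, or TB is true for all separated schemes of finite type over all finite fields of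
characteristic `p`.
In particular (1) and (2) are true for `t = 2`, and equivalent to Q1 (in characteristic `p`) for
`t = 3`. -/
theorem result (p : ℕ) [Fact p.Prime] (Λ : Type u) [Field Λ] [CharZero Λ] (S : System.{u, v} p Λ)
    (C : ∀ (K : Type) [Field K] [Finite K] [Algebra (ZMod p) K], Sch K → Prop)
    (hC : ∀ (K : Type) [Field K] [Finite K] [Algebra (ZMod p) K], IsProjClass (S.T K) (C K))
    (t : ℕ) :
    List.TFAE [
      ∀ (K : Type) [Field K] [Finite K] [Algebra (ZMod p) K], ForTerms 1 t (S.T K).TB,
      ForBilinear t (S.T (ZMod p)).TB,
      t ≤ 2 ∨ ∀ (K : Type) [Field K] [Finite K] [Algebra (ZMod p) K] (X : Sch K), FT True X →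
        (S.T K).TB X] := by
  have hd : ringKrullDim (ZMod p) ≤ 1 := dim_fin (k := ZMod p) (ZMod p)
  have h0 := dichotomy_int (N := 1) ZMod.intCast_surjective
    (clo_of_bnd (bnd (S.T (ZMod p)) (one_lt_card (ZMod p))))
    (posD_tb (one_lt_card (ZMod p)) (hC (ZMod p))) hd t
  tfae_have 1 → 2 := fun h => (h0.out 0 1).mp (h (ZMod p))
  tfae_have 2 → 3 := by
    intro h
    rcases (h0.out 1 2).mp h with ht | hX
    · exact Or.inl ht
    · refine Or.inr fun K _ _ _ X hX' i j => ?_
      exact Reg.tb_of_induced (S.restriction K i j X hX') (hX (toPrime p X) (ft_toPrime p hX') i j)
  tfae_have 3 → 1 := by
    rintro (ht | h) K _ _ _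
    · exact (two_terms (posD_tb (one_lt_card K) (hC K))).mono ht
    · intro B _ _ _ hB n G _
      have h2 : Algebra.FiniteType K (MvPolynomial (Fin n) B ⧸ Ideal.span G) :=
        Algebra.FiniteType.trans (S := B) inferInstance inferInstance
      exact h K _ (ft_aff True)
  tfae_finish

end Pool.Agent.Results.MP_2ce3e7_ag.TwoAndThreeTerms
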